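import Pool.Agent.H.MP_d84959_lc.Defs

namespace Pool.Agent.Results.MP_b8bcd1_lc.Direct

open Pool.Agent.H.MP_d84959_lc Fm

/-- strengthened parity: every critical node of the branch lies in the trace -/
def SPar (C T : Finset ℕ) : Prop := ∀ k ∈ C, k ∈ T ∧ k + 1 ∈ T

def p : Fm := var 0
def q : Fm := var 1
def r : Fm := var 2
def X : Fm := (p.or (r.imp p)).imp p
def Y : Fm := (q.or (q.neg.imp r)).imp q

/-- formulae whose nodes do not depend on the first critical node -/
def L : Bool → List Fm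
  | true => [(X.or Y).neg, X.neg, Y.neg, q.or (q.neg.imp r), q.neg, q]
  | false => [(X.or Y).neg, X.neg, Y.neg, p.or (r.imp p), p.neg, p]

def M : Bool → List Fm
  | true => [p.or (r.imp p), p.neg, r.imp p]
  | false => [q.or (q.neg.imp r), q.neg, q.neg.imp r, r]

def I (B : List (Fm × Finset ℕ)) (C : Finset ℕ) (s : Bool) (k : ℕ) : Prop :=
  k ∈ C ∧ k < B.length ∧ ∀ n ∈ B, n.1 ∈ M s ∨ n.1 ∈ L s ∧ k ∉ n.2

lemma I.add {B C C' s k a T} (h : I B C s k) (hC : C ⊆ C') (ha : a ∈ M s ∨ a ∈ L s ∧ k ∉ T) {n : ℕ}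
    (hn : B.length ≤ n) : I ((a, insert n T) :: B) C' s k := by
  refine ⟨hC h.1, by simpa using h.2.1.le, ?_⟩
  rintro m (_ | ⟨_, hm⟩)
  · have := h.2.1
    exact ha.imp_right fun e => ⟨e.1, by simp [e.2]; omega⟩
  · exact h.2.2 m hm

lemma late {B C} (H : Closes SPar False B C) : ∀ s k, ¬ I B C s k := by
  induction H with
  | crash hp hq hz =>
    intro s k h
    have := Finset.mem_union.1 (hz k h.1).1
    have h1 := h.2.2 _ hp
    have h2 := h.2.2 _ hq
    clear hz h hp hq
    cases s <;> simp only [L, M, X, Y, p, q, r, List.mem_cons, neg.injEq, reduceCtorEq, false_or,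
      List.not_mem_nil, or_false] at h1 h2 <;> rcases h2 with rfl | ⟨rfl | rfl | rfl | rfl, h2⟩ <;>
      simp_all
  | conj hp _ ih =>
    intro s k h
    have h1 := h.2.2 _ hp
    cases s <;> simp [L, M, X, Y, p, q, r] at h1
  | nor hp _ ih =>
    intro s k h
    have h1 := h.2.2 _ hp
    refine ih s k ((h.add le_rfl ?_ le_rfl).add le_rfl ?_ (by simp)) <;>
    cases s <;> simp only [L, M, X, Y, p, q, r] at h1 ⊢ <;> aesop
  | dn hp _ ih =>
    intro s k h
    have h1 := h.2.2 _ hp
    cases s <;> simp [L, M, X, Y, p, q, r] at h1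
  | nand hp _ _ i1 i2 =>
    intro s k h
    have h1 := h.2.2 _ hp
    cases s <;> simp [L, M, X, Y, p, q, r] at h1
  | @disj B C a b T hp _ _ i1 i2 =>
    intro s k h
    have h1 := h.2.2 _ hp
    have : (a ∈ M s ∨ a ∈ L s ∧ k ∉ T) ∨ (b ∈ M s ∨ b ∈ L s ∧ k ∉ T) := by
      cases s <;> simp only [L, M, X, Y, p, q, r] at h1 ⊢ <;> aesop
    exact this.elim (fun e => i1 s k (h.add le_rfl e le_rfl)) fun e => i2 s k (h.add le_rfl e le_rfl)
  | mp hp hq _ ih =>
    intro s k h
    have h1 := h.2.2 _ hp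
    have h2 := h.2.2 _ hq
    refine ih s k (h.add le_rfl ?_ le_rfl)
    cases s <;> simp only [L, M, X, Y, p, q, r] at h1 h2 ⊢ <;> aesop
  | cc hp _ ih =>
    intro s k h
    have h1 := h.2.2 _ hp
    refine ih s k ((h.add le_rfl ?_ le_rfl).add (Finset.subset_insert _ _) ?_ (by simp)) <;>
    cases s <;> simp only [L, M, X, Y, p, q, r] at h1 ⊢ <;> aesop
  | recu h => exact h.elim

lemma early {B C} (H : Closes SPar False B C) :
    ¬ ∀ n ∈ B, n.1 ∈ [(X.or Y).neg, X.neg, Y.neg] ∧ ∀ k ∈ n.2, k < B.length := by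
  induction H with
  | crash hp hq hz =>
    intro h
    have h1 := (h _ hp).1
    have h2 := (h _ hq).1
    simp only [X, Y, p, q, r] at h1 h2
    aesop
  | conj hp _ ih => intro h; simpa using (h _ hp).1
  | nor hp _ ih =>
    intro h
    have h1 := h _ hp
    refine ih ?_
    rintro m (_ | ⟨_, _ | ⟨_, hm⟩⟩)
    · refine ⟨by simp only [X, Y] at h1 ⊢; aesop, fun k hk => ?_⟩
      rcases Finset.mem_insert.1 hk with rfl | hk
      · simp
      · have := h1.2 k hk
        simp
        omega
    · refine ⟨by simp only [X, Y] at h1 ⊢; aesop, fun k hk => ?_⟩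
      rcases Finset.mem_insert.1 hk with rfl | hk
      · simp
      · have := h1.2 k hk
        simp
        omega
    · exact ⟨(h m hm).1, fun k hk => by have := (h m hm).2 k hk; simp; omega⟩
  | dn hp _ ih => intro h; simpa [X, Y] using (h _ hp).1
  | nand hp _ _ i1 i2 => intro h; simpa [X, Y] using (h _ hp).1
  | disj hp _ _ i1 i2 => intro h; simpa using (h _ hp).1
  | mp hp hq _ ih => intro h; simpa using (h _ hq).1
  | @cc B C a b T hp H ih =>
    intro h
    have h1 := (h _ hp).1
    have (s : Bool) (e : a ∈ M s ∧ b.neg ∈ M s) : False := by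
      refine late H s B.length ⟨by simp, by simp, ?_⟩
      rintro m (_ | ⟨_, _ | ⟨_, hm⟩⟩)
      · exact .inl e.2
      · exact .inl e.1
      · refine .inr ⟨?_, fun e => absurd ((h m hm).2 _ e) (by omega)⟩
        have := (h m hm).1
        cases s <;> simp only [L] <;> aesop
    simp only [X, Y, List.mem_cons, neg.injEq, imp.injEq, reduceCtorEq, false_or, List.not_mem_nil,
      or_false] at h1
    rcases h1 with ⟨rfl, rfl⟩ | ⟨rfl, rfl⟩
    · exact this true (by simp [M])
    · exact this false (by simp [M])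
  | recu h => exact h.elim

theorem result : ∃ φ : Fm, HasTree Par False φ ∧ ¬ HasTree SPar False φ := by
  refine ⟨X.or Y, ?_, fun h => early h (by simp)⟩
  refine .nor (.head _) (.cc (a := p.or (r.imp p)) (.tail _ (.head _)) (.disj (.tail _ (.head _))
    (.crash (.head _) (.tail _ (.head _)) (by simp [Par])) ?_))
  refine .cc (a := q.or (q.neg.imp r)) (.tail _ (.tail _ (.tail _ (.head _))))
    (.disj (.tail _ (.head _)) (.crash (.head _) (.tail _ (.head _)) (by simp [Par])) ?_)
  refine .mp (.tail _ (.head _)) (.head _) (.mp (.head _)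
    (.tail _ (.tail _ (.tail _ (.tail _ (.head _))))) (.crash (.head _)
    (.tail _ (.tail _ (.tail _ (.tail _ (.tail _ (.tail _ (.head _))))))) (by simp [Par])))

end Pool.Agent.Results.MP_b8bcd1_lc.Direct
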